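import Pool.Agent.H14.TA.Stmts

/-!
# Module PARTS: combinatorics of maximal two-letter subwords
-/

namespace TA

/-- Extension of a word avoiding `z` to a maximal one. -/
theorem part_extend (w l u r : List (Fin 3 × ℤ)) (z : Fin 3) (hw : w = l ++ u ++ r)
    (h2 : 2 ≤ u.length) (hz : ∀ s ∈ u, s.1 ≠ z) :
    ∃ w1 v w2 l' r', Part w w1 v w2 z ∧ l = w1 ++ l' ∧ r = r' ++ w2 ∧ v = l' ++ u ++ r' := by
  set p : Fin 3 × ℤ → Bool := fun s => decide (s.1 ≠ z) with hp
  have hl : l = (l.reverse.dropWhile p).reverse ++ (l.reverse.takeWhile p).reverse := by
    rw [← List.reverse_append, List.takeWhile_append_dropWhile, List.reverse_reverse]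
  have hr : r = r.takeWhile p ++ r.dropWhile p := by
    rw [List.takeWhile_append_dropWhile]
  refine ⟨(l.reverse.dropWhile p).reverse,
    (l.reverse.takeWhile p).reverse ++ u ++ r.takeWhile p, r.dropWhile p,
    (l.reverse.takeWhile p).reverse, r.takeWhile p, ?_, hl, hr, rfl⟩
  refine ⟨?_, ?_, ?_, ?_, ?_⟩
  · rw [hw]
    conv_lhs => rw [hl, hr]
    simp [List.append_assoc]
  · intro s hs
    rw [List.mem_append, List.mem_append] at hs
    rcases hs with (hs | hs) | hs
    · rw [List.mem_reverse] at hs
      have := List.mem_takeWhile_imp hs
      simpa [hp] using this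
    · exact hz s hs
    · have := List.mem_takeWhile_imp hs
      simpa [hp] using this
  · simp only [List.length_append]; omega
  · intro s hs
    rw [List.getLast?_reverse] at hs
    have := List.head?_dropWhile_not p l.reverse
    rw [Option.mem_def] at hs
    rw [hs] at this
    simpa [hp] using this
  · intro s hs
    have := List.head?_dropWhile_not p r
    rw [Option.mem_def] at hs
    rw [hs] at this
    simpa [hp] using this

theorem exists_third (a b : Fin 3) : ∃ z : Fin 3, a ≠ z ∧ b ≠ z := by
  revert a b; decide

theorem third_unique (a b z z' : Fin 3) (hab : a ≠ b) (h1 : a ≠ z) (h2 : b ≠ z) (h3 : a ≠ z')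
    (h4 : b ≠ z') : z = z' := by
  revert a b z z'; decide

theorem part_mem {w w1 v w2 : List (Fin 3 × ℤ)} {z : Fin 3} (h : Part w w1 v w2 z) (k : ℕ)
    (h1 : w1.length ≤ k) (h2 : k < w1.length + v.length) (hk : k < w.length) :
    (w[k]).1 ≠ z := by
  apply h.miss
  have h3 : w[k] = v[k - w1.length] := by
    have := h.eq
    simp only [this]
    rw [List.getElem_append_left (by simp; omega), List.getElem_append_right h1]
  rw [h3]
  exact List.getElem_mem _

theorem part_left {w w1 v w2 : List (Fin 3 × ℤ)} {z : Fin 3} (h : Part w w1 v w2 z)
    (h1 : 0 < w1.length) (hk : w1.length - 1 < w.length) : (w[w1.length - 1]).1 = z := by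
  apply h.left
  have h3 : w[w1.length - 1] = w1[w1.length - 1] := by
    have := h.eq
    simp only [this]
    rw [List.getElem_append_left (by simp; omega), List.getElem_append_left (by omega)]
  rw [h3, List.getLast?_eq_getElem?, Option.mem_def, List.getElem?_eq_getElem (by omega)]

theorem part_right {w w1 v w2 : List (Fin 3 × ℤ)} {z : Fin 3} (h : Part w w1 v w2 z)
    (hk : w1.length + v.length < w.length) : (w[w1.length + v.length]).1 = z := by
  apply h.right
  have h4 : w.length = w1.length + v.length + w2.length := by rw [h.eq]; simp; omega
  have h3 : w[w1.length + v.length] = w2[0] := by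
    have := h.eq
    simp only [this]
    rw [List.getElem_append_right (by simp)]
    simp
  rw [h3, List.head?_eq_getElem?, Option.mem_def, List.getElem?_eq_getElem (by omega)]

theorem part_start_le {w w1 v w2 w1' v' w2' : List (Fin 3 × ℤ)} {z : Fin 3}
    (h : Part w w1 v w2 z) (h' : Part w w1' v' w2' z) (j : ℕ) (h1 : w1.length ≤ j)
    (h2 : j < w1.length + v.length) (h3 : w1'.length ≤ j) (h4 : j < w1'.length + v'.length) :
    w1'.length ≤ w1.length := by
  by_contra hcon
  have e1 : w.length = w1.length + v.length + w2.length := by rw [h.eq]; simp; omega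
  have := part_left h' (by omega) (by omega)
  exact part_mem h (w1'.length - 1) (by omega) (by omega) (by omega) this

theorem part_end_le {w w1 v w2 w1' v' w2' : List (Fin 3 × ℤ)} {z : Fin 3}
    (h : Part w w1 v w2 z) (h' : Part w w1' v' w2' z) (j : ℕ) (h1 : w1.length ≤ j)
    (h2 : j < w1.length + v.length) (h3 : w1'.length ≤ j) (h4 : j < w1'.length + v'.length) :
    w1.length + v.length ≤ w1'.length + v'.length := by
  by_contra hcon
  have e1 : w.length = w1.length + v.length + w2.length := by rw [h.eq]; simp; omega
  have := part_right h' (by omega)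
  exact part_mem h (w1'.length + v'.length) (by omega) (by omega) (by omega) this

theorem parts : S_PARTS := by
  refine ⟨part_extend, ?_, ?_⟩
  · intro w _ hw j hj
    have key : ∀ k, k + 1 < w.length → k ≤ j → j < k + 2 →
        ∃ w1 v w2 z, Part w w1 v w2 z ∧ w1.length ≤ j ∧ j < w1.length + v.length := by
      intro k hk h1 h2
      obtain ⟨z, hz1, hz2⟩ := exists_third (w[k]).1 (w[k + 1]).1
      have hdec : w = w.take k ++ [w[k], w[k + 1]] ++ w.drop (k + 2) := by
        conv_lhs => rw [← List.take_append_drop k w]
        rw [List.append_assoc]
        congr 1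
        rw [List.drop_eq_getElem_cons (by omega : k < w.length),
          List.drop_eq_getElem_cons hk]
        rfl
      obtain ⟨w1, v, w2, l', r', hP, hl, hr, hv⟩ := part_extend w (w.take k) [w[k], w[k + 1]]
        (w.drop (k + 2)) z hdec (by simp) (by
          intro s hs
          simp only [List.mem_cons, List.not_mem_nil, or_false] at hs
          rcases hs with rfl | rfl
          · exact hz1
          · exact hz2)
      refine ⟨w1, v, w2, z, hP, ?_, ?_⟩
      · have := congrArg List.length hl
        rw [List.length_take, List.length_append] at this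
        omega
      · have h3 := congrArg List.length hl
        have h4 := congrArg List.length hv
        rw [List.length_take, List.length_append] at h3
        simp only [List.length_append, List.length_cons, List.length_nil] at h4
        omega
    by_cases hj' : j + 1 < w.length
    · exact key j hj' le_rfl (by omega)
    · exact key (j - 1) (by omega) (by omega) (by omega)
  · intro w w1 v w2 w1' v' w2' z z' hred h h' j h1 h2 h3 h4
    have e1 : w.length = w1.length + v.length + w2.length := by rw [h.eq]; simp; omega
    have hzz : z = z' := by
      refine third_unique (w[j - 1]).1 (w[j]).1 z z' ?_ ?_ ?_ ?_ ?_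
      · have := List.isChain_iff_getElem.1 hred.1 (j - 1) (by omega)
        simpa [Nat.sub_add_cancel (show 1 ≤ j by omega)] using this
      · exact part_mem h (j - 1) (by omega) (by omega) (by omega)
      · exact part_mem h j (by omega) (by omega) (by omega)
      · exact part_mem h' (j - 1) (by omega) (by omega) (by omega)
      · exact part_mem h' j (by omega) (by omega) (by omega)
    subst hzz
    have a1 := part_start_le h h' j (by omega) (by omega) (by omega) (by omega)
    have a2 := part_start_le h' h j (by omega) (by omega) (by omega) (by omega)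
    have a3 := part_end_le h h' j (by omega) (by omega) (by omega) (by omega)
    have a4 := part_end_le h' h j (by omega) (by omega) (by omega) (by omega)
    have b1 : w1.length = w1'.length := by omega
    have b2 : v.length = v'.length := by omega
    have hE := h.eq.symm.trans h'.eq
    rw [List.append_assoc, List.append_assoc] at hE
    obtain ⟨c1, c2⟩ := List.append_inj hE b1
    obtain ⟨c3, -⟩ := List.append_inj c2 b2
    exact ⟨c1, c3⟩

end TA
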