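import Pool.Agent.H14.TA.Stmts

/-!
# Module RETL: retraction of syllable lists
-/

namespace TA

/-- The retraction of a syllable list to the letters `x, y`. -/
def rlist (x y : Fin 3) : List (Fin 3 × ℤ) → List (Bool × ℤ)
  | [] => []
  | s :: l => if s.1 = x then (false, s.2) :: rlist x y l
      else if s.1 = y then (true, s.2) :: rlist x y l else rlist x y l

theorem ev_rlist (κ : ℕ) (x y : Fin 3) (l : List (Fin 3 × ℤ)) :
    ev (dgen κ) (rlist x y l) = ret κ x y (ev (gen κ) l) := by
  induction l with
  | nil => simp [rlist]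
  | cons s l ih =>
    rw [rlist, ev_cons, map_mul, map_zpow, ret_gen]
    by_cases h1 : s.1 = x
    · simp [h1, ih]
    · by_cases h2 : s.1 = y
      · rw [if_neg h1, if_neg h1, if_pos h2, if_pos h2, ev_cons, ih]
      · rw [if_neg h1, if_neg h1, if_neg h2, if_neg h2, ih, one_zpow, one_mul]

theorem length_rlist_le (x y : Fin 3) (l : List (Fin 3 × ℤ)) :
    (rlist x y l).length ≤ l.length := by
  induction l with
  | nil => simp [rlist]
  | cons s l ih =>
    rw [rlist]
    split_ifs <;> simp <;> omega

theorem length_rlist_lt (x y : Fin 3) (l : List (Fin 3 × ℤ)) (s : Fin 3 × ℤ) (hs : s ∈ l)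
    (h1 : s.1 ≠ x) (h2 : s.1 ≠ y) : (rlist x y l).length < l.length := by
  induction l with
  | nil => simp at hs
  | cons u l ih =>
    rw [rlist]
    rcases List.mem_cons.1 hs with rfl | hs'
    · rw [if_neg h1, if_neg h2]
      have := length_rlist_le x y l
      simp; omega
    · have := ih hs'
      split_ifs <;> simp <;> omega

/-- The inclusion of syllable lists. -/
def ilist (x y : Fin 3) (l : List (Bool × ℤ)) : List (Fin 3 × ℤ) :=
  l.map fun s => (if s.1 then y else x, s.2)

theorem length_ilist (x y : Fin 3) (l : List (Bool × ℤ)) : (ilist x y l).length = l.length := by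
  simp [ilist]

theorem ev_ilist (κ : ℕ) (x y : Fin 3) (l : List (Bool × ℤ)) :
    ev (gen κ) (ilist x y l) = iota κ x y (ev (dgen κ) l) := by
  induction l with
  | nil => simp [ilist]
  | cons s l ih =>
    obtain ⟨i, e⟩ := s
    have h : ilist x y ((i, e) :: l) = (if i then y else x, e) :: ilist x y l := rfl
    rw [h, ev_cons, ev_cons, ih, map_mul, map_zpow]
    cases i <;> simp

theorem mem_ilist (x y : Fin 3) (l : List (Bool × ℤ)) (s : Fin 3 × ℤ) (hs : s ∈ ilist x y l) :
    s.1 = x ∨ s.1 = y := by
  rw [ilist, List.mem_map] at hs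
  obtain ⟨u, -, rfl⟩ := hs
  by_cases h : u.1 = true
  · right; simp [h]
  · left; simp [h]

theorem exists_list_D (κ : ℕ) (α : D κ) : ∃ l : List (Bool × ℤ), ev (dgen κ) l = α := by
  have hα : α ∈ Subgroup.closure (Set.range (dgen κ)) := by rw [D_closure]; trivial
  induction hα using Subgroup.closure_induction with
  | mem g hg =>
    obtain ⟨i, rfl⟩ := hg
    exact ⟨[(i, 1)], by simp⟩
  | one => exact ⟨[], rfl⟩
  | mul g h _ _ hg hh =>
    obtain ⟨l, hl⟩ := hg
    obtain ⟨m, hm⟩ := hh
    exact ⟨l ++ m, by rw [ev_append, hl, hm]⟩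
  | inv g _ hg =>
    obtain ⟨l, hl⟩ := hg
    exact ⟨linv l, by rw [ev_linv, hl]⟩

theorem retl : S_RETL := by
  intro κ x y hxy
  have h1 : ∀ (l : List (Fin 3 × ℤ)) (α : D κ), ev (gen κ) l = iota κ x y α →
      ev (dgen κ) (rlist x y l) = α := by
    intro l α h
    rw [ev_rlist, h, ret_iota κ hxy]
  refine ⟨fun l α h => ⟨rlist x y l, h1 l α h, length_rlist_le x y l⟩, ?_, ?_, ?_⟩
  · intro l hl
    refine ⟨l.map fun s => (decide (s.1 = y), s.2), by simp, ?_, ?_⟩
    · intro hred
      refine ⟨?_, ?_⟩
      · rw [List.isChain_map]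
        refine List.IsChain.imp_of_mem_imp ?_ hred.1
        intro a b ha hb hab h
        apply hab
        rcases hl a ha with h1 | h1 <;> rcases hl b hb with h2 | h2 <;>
          simp [h1, h2, hxy] at h ⊢
      · intro s hs
        rw [List.mem_map] at hs
        obtain ⟨u, hu, rfl⟩ := hs
        exact hred.2 u hu
    · induction l with
      | nil => simp
      | cons s l ih =>
        rw [List.map_cons, ev_cons, ev_cons, ih (fun t ht => hl t (by simp [ht])), map_mul,
          map_zpow]
        congr 1
        rcases hl s (by simp) with h2 | h2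
        · simp [h2, hxy]
        · simp [h2]
  · intro α
    obtain ⟨l0, hl0⟩ := exists_list_D κ α
    obtain ⟨l1, h2, h3, -⟩ := exists_geo (dgen κ) l0
    refine ⟨ilist x y l1, ?_, mem_ilist x y l1, by rw [ev_ilist, h2, hl0]⟩
    intro l' hl'
    rw [ev_ilist] at hl'
    have h4 := h1 l' _ hl'
    have h5 := h3 _ h4
    have h6 := length_rlist_le x y l'
    rw [length_ilist]
    omega
  · intro l α hgeo h s hs
    by_contra hcon
    push Not at hcon
    have h2 := length_rlist_lt x y l s hs hcon.1 hcon.2
    have h3 := hgeo (ilist x y (rlist x y l)) (by rw [ev_ilist, h1 l α h, h])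
    rw [length_ilist] at h3
    omega

end TA
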